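import Pool.Agent.Helper90.MZ.StmtsC

/-!
# Module PK
-/

set_option autoImplicit false

namespace Pool.Agent.Helper90.MZ

open Pool.Agent.Helper90.TS

variable {V G : Type} [Group G] [MulAction G V]

/-- transport of a subfamily along an injection -/
private theorem pk_transport {X : Ctx V G} {b : Set V} (hb : b.Countable) (h2 : ST_PRB) (h3 : ST_NOEQ)
    {k m : ℕ} (C : Fin k → Ty V) (e : Fin m ↪ Fin k) (hC : ∀ i, SR X (C i)) (J : Finset (Fin m))
    (hJ : Idp X b (fun i => C (e i)) (J : Set (Fin m))) :
    Idp X b C ((J.map e : Finset (Fin k)) : Set (Fin k)) := by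
  classical
  have P3 := (h2 V G X b hb).2.2.1
  have N1 := (h3 V G X).1
  rcases Nat.eq_zero_or_pos m with hm | hm
  · subst hm
    have hJ0 : J = ∅ := Finset.eq_empty_of_isEmpty J
    subst hJ0
    obtain ⟨q, -, hq2⟩ := hJ
    rw [Finset.map_empty, Finset.coe_empty]
    refine ⟨C, fun i hi => absurd hi (Set.notMem_empty i), ?_⟩
    intro I I' _
    have e1 : (⋃ i ∈ I, (C ((i : (∅ : Set (Fin k))) : Fin k)).A) = ∅ := by
      apply Set.eq_empty_of_forall_notMem
      intro x hx
      simp only [Set.mem_iUnion] at hx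
      obtain ⟨i, -, -⟩ := hx
      exact i.2
    have e2 : (⋃ i ∈ I', (C ((i : (∅ : Set (Fin k))) : Fin k)).A) = ∅ := by
      apply Set.eq_empty_of_forall_notMem
      intro x hx
      simp only [Set.mem_iUnion] at hx
      obtain ⟨i, -, -⟩ := hx
      exact i.2
    rw [e1, e2]
    have := hq2 ∅ ∅ (Set.disjoint_empty _)
    simpa using this
  · have : Nonempty (Fin m) := ⟨⟨0, hm⟩⟩
    set f : Fin k → Fin m := Function.invFun e with hf
    have hfe : ∀ i, f (e i) = i := Function.leftInverse_invFun e.injective
    have hcoe : ((J.map e : Finset (Fin k)) : Set (Fin k)) = e '' (J : Set (Fin m)) := by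
      rw [Finset.coe_map]
    rw [hcoe]
    apply P3 (Fin m) (Fin k) (fun i => C (e i)) C f (e '' (J : Set (Fin m)))
    · rintro _ ⟨i, _, rfl⟩ _ ⟨j, _, rfl⟩ hij
      rw [hfe, hfe] at hij
      rw [hij]
    · intro i; exact hC _
    · exact hC
    · rintro _ ⟨i, _, rfl⟩
      show NO X (C (e (f (e i)))) (C (e i))
      rw [hfe]
      exact N1 _ (hC _)
    · have : f '' (e '' (J : Set (Fin m))) = (J : Set (Fin m)) := by
        rw [Set.image_image]
        simp only [hfe]
        exact Set.image_id' _
      rw [this]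
      exact hJ

theorem st_PK (h1 : ST_PKA) (h2 : ST_PRB) (h3 : ST_NOEQ) : ST_PK := by
  classical
  intro V G _ _ X b hfew hb
  obtain ⟨K0, hK0⟩ := h1 V G X b hfew hb
  refine ⟨max K0 1, ?_⟩
  set K := max K0 1 with hK
  have hK1 : 1 ≤ K := le_max_right _ _
  have hKK : K0 ≤ K := le_max_left _ _
  have P := h2 V G X b hb.countable
  intro k
  induction k using Nat.strong_induction_on with
  | _ k ih =>
    intro C hC
    have hSR : ∀ i, SR X (C i) := fun i => (hC.1 i).1.1
    by_cases hI : Indec X b C
    · have hk := hK0 k C hC hI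
      rcases Nat.eq_zero_or_pos k with hk0 | hk0
      · subst hk0
        refine ⟨∅, ?_, by simp⟩
        rw [Finset.coe_empty]
        refine ⟨C, fun i hi => absurd hi (Set.notMem_empty i), ?_⟩
        intro I I' _
        have e1 : (⋃ i ∈ I, (C ((i : (∅ : Set (Fin 0))) : Fin 0)).A) = ∅ := by
          apply Set.eq_empty_of_forall_notMem
          intro x hx
          simp only [Set.mem_iUnion] at hx
          obtain ⟨i, -, -⟩ := hx
          exact i.2
        rw [e1]
        exact si_empty_left
      · refine ⟨{⟨0, hk0⟩}, ?_, ?_⟩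
        · rw [Finset.coe_singleton]
          exact P.1 (Fin k) C ⟨0, hk0⟩ (hSR _) (hC.1 _).1.2.1
        · rw [Finset.card_singleton, mul_one]
          exact le_trans hk hKK
    · unfold Indec at hI
      push Not at hI
      obtain ⟨J0, hJ0, hJ0c, hJ⟩ := hI
      set s0 : Finset (Fin k) := Finset.univ.filter (fun i => i ∈ J0) with hs0
      set s1 : Finset (Fin k) := Finset.univ.filter (fun i => i ∉ J0) with hs1
      have hcard : s0.card + s1.card = k := by
        have := Finset.card_filter_add_card_filter_not (s := (Finset.univ : Finset (Fin k))) (fun i => i ∈ J0)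
        rw [Finset.card_univ, Fintype.card_fin] at this
        exact this
      have hs0p : 0 < s0.card := by
        rw [Finset.card_pos]
        obtain ⟨x, hx⟩ := hJ0
        exact ⟨x, by simp [hs0, hx]⟩
      have hs1p : 0 < s1.card := by
        rw [Finset.card_pos]
        obtain ⟨x, hx⟩ := hJ0c
        exact ⟨x, by simpa [hs1] using hx⟩
      set e0 : Fin s0.card ↪ Fin k := (s0.orderEmbOfFin rfl).toEmbedding with he0
      set e1 : Fin s1.card ↪ Fin k := (s1.orderEmbOfFin rfl).toEmbedding with he1
      have hr0 : ∀ i, e0 i ∈ J0 := by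
        intro i
        have : s0.orderEmbOfFin rfl i ∈ s0 := Finset.orderEmbOfFin_mem s0 rfl i
        exact (Finset.mem_filter.1 this).2
      have hr1 : ∀ i, e1 i ∉ J0 := by
        intro i
        have : s1.orderEmbOfFin rfl i ∈ s1 := Finset.orderEmbOfFin_mem s1 rfl i
        exact (Finset.mem_filter.1 this).2
      have hF : ∀ {m : ℕ} (e : Fin m ↪ Fin k), Fam X b (fun i => C (e i)) := by
        intro m e
        exact ⟨fun i => hC.1 (e i), fun i j hij => hC.2 (e i) (e j) (fun h => hij (e.injective h))⟩
      obtain ⟨J1, hJ1, hc1⟩ := ih s0.card (by omega) (fun i => C (e0 i)) (hF e0)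
      obtain ⟨J2, hJ2, hc2⟩ := ih s1.card (by omega) (fun i => C (e1 i)) (hF e1)
      have t1 := pk_transport hb.countable h2 h3 C e0 hSR J1 hJ1
      have t2 := pk_transport hb.countable h2 h3 C e1 hSR J2 hJ2
      refine ⟨J1.map e0 ∪ J2.map e1, ?_, ?_⟩
      · rw [Finset.coe_union]
        apply hJ _ _ _ _ t1 t2
        · intro x hx
          rw [Finset.mem_coe, Finset.mem_map] at hx
          obtain ⟨i, -, rfl⟩ := hx
          exact hr0 i
        · intro x hx
          rw [Finset.mem_coe, Finset.mem_map] at hx
          obtain ⟨i, -, rfl⟩ := hx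
          exact hr1 i
      · have hdis : Disjoint (J1.map e0) (J2.map e1) := by
          rw [Finset.disjoint_left]
          intro x hx hx2
          rw [Finset.mem_map] at hx hx2
          obtain ⟨i, -, rfl⟩ := hx
          obtain ⟨j, -, hj⟩ := hx2
          exact hr1 j (by rw [hj]; exact hr0 i)
        rw [Finset.card_union_of_disjoint hdis, Finset.card_map, Finset.card_map, mul_add]
        omega

end Pool.Agent.Helper90.MZ
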